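import Pool.Agent.U725.RE.Dom

/-!
# μ-invariants of totally real fields generated by cosines

Let `p` be a prime number and `P` a finite set of prime numbers. For a field `K` of algebraic numbers, of finite or
infinite degree, let `X_P(K)` be the Galois group over `K` of the maximal abelian pro-`p` extension of `K` which is
unramified outside the places above `P` and the real places. The continuous homomorphisms `X_P(K) → ℤ/p` form the
set `chars p P K` (`Pool.Agent.U463.XS`, by helper463). If `p` is odd, `E` is totally real, `p ∈ P` and `L` is the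
cyclotomic `ℤ_p`-extension of `ℚ`, then this set is finite for `K = E L` if and only if `μ_p(E) = 0`, by Nakayama's
lemma. Here `L` is any field generated by roots of unity of `p`-power order, for example the cyclotomic
`ℤ_p`-extension, and there are no assumptions on the number fields.

We show:

1. A criterion for arbitrary subfields: let `E_i`, finitely many subfields of a number field `F`, be such that the
   indicator function of the inclusion on the set of the embeddings of `F` is a sum of functions with values in
   `ℤ/p` of the restrictions to the `E_i` (`DecomposesIn`). If `X_P(E_i L) / p` is finite for all `i`, then so is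
   `X_P(F L) / p`, and there is a constant `B` with `|X_P(F L) / p| ≤ B C ^ B` for all `L` and all `C ≥ 1` with
   `|X_P(E_i L) / p| ≤ C` for all `i`.
2. Division of angles: let `E(δ)` be a quadratic extension of the number field `E`, `δ² ∈ E`, and let `b_1, ..., b_n`
   be numbers whose `m`-th powers are in `E(δ)`, with `c(b_i) = b_i⁻¹` and `c(δ) = -δ` for an automorphism `c` over `E`;
   for example, `c` is the complex conjugation, `E` is totally real, `E(δ)` is a CM field and the `b_i` are the `m`-th
   roots of numbers of absolute value `1` in `E(δ)`. Let `F` be the field of the elements of `E(δ, b_1, ..., b_n)` fixed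
   by `c`: it contains the numbers `b_i + b_i⁻¹` and `(b_i - b_i⁻¹) δ`. If `p` does not divide `m`, then the conclusions
   of (1) hold for `F` and the fields of the elements of `E(δ, b)` fixed by `c`, `b = ∏ b_i^(e_i)`, `0 ≤ e_i < m`. If `E` is
   totally real and `δ²` is totally negative, then `F` is totally real.
3. If `X_P(F L) / p` is infinite, but `X_P(E L) / p` is finite for all the subfields `E ≠ F` of `F`, then the indicator
   function of `F` is no such sum for fields `E_i ≠ F`, and if `F` is as in (2), then `F` is already the field of the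
   elements of `E(δ, b)` fixed by `c` for one of the products `b`.

For instance, let `E = ℚ`, `δ = i`, let `m` be odd and prime to `p`, and let `b_1, b_2` be `m`-th roots of
`(1 + 2i)/(1 - 2i) = exp(iθ_1)` and of `(2 + 3i)/(2 - 3i) = exp(iθ_2)`.  Then `F` has degree `m²`, is totally real and has
no automorphisms except the identity, and the fields in (2) are generated by the numbers
`2 cos((e_1 θ_1 + e_2 θ_2)/m)`; their degrees divide `m`.

Proof. Let `V` be a representation of `G = Gal(N/ℚ)` over `ℤ/p`, `N ⊇ F` Galois over `ℚ`, and `x ∈ V` fixed by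
`H = Gal(N/F)`. If the indicator function of `H` is the sum of functions `f_i` invariant under right translations by
`H_i = Gal(N/E_i)`, then `x = ∑ f_i(g) g x`, `g ∈ G/H`, is a combination of the conjugates of the vectors
`∑_(h ∈ H_i/H) h x`, which are fixed by `H_i`; no division by group orders is needed. So the fields `E_i` dominate `F`, and
the descent theorem for dominated fields of `MP_4e64b4_nt.ReducibilityDescent` (helper463) applies. In (2) an
automorphism `g` over `E` is trivial on `F` if and only if it is `1` or `c` on `E(δ, b_1, ..., b_n)`. The numbers `g(b) / b` if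
`g δ = δ`, `g(b)⁻¹ / b` if `g δ = -δ`, are roots of unity which depend only on the restriction of `g` to the field given
by `b`, and their sum over the exponents is `0` or `m^n`; they are made elements of `ℤ/p` by a reduction modulo a
prime above `p` and a linear form.
-/

set_option autoImplicit false

namespace Pool.Agent.Results.MP_4e64b4_nt.AngleDivision

open Module
open Pool.Agent.Q60.MU (Qb)
open Pool.Agent.U463.XS
open Pool.Agent.U725.RE

/-- The inequality holds with one constant for all the fields `L` generated by roots of unity of `p`-power order, and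
for these fields finiteness for all `E ∈ 𝓔` implies finiteness for `F`. -/
def Descent (p : ℕ) (P : Finset ℕ) (𝓔 : Set (IntermediateField ℚ Qb)) (F : IntermediateField ℚ Qb) : Prop :=
  CycBound p P 𝓔 F ∧
    ∀ L, IsCyc p L → (∀ E ∈ 𝓔, (chars p P (E ⊔ L)).Finite) → (chars p P (F ⊔ L)).Finite

theorem descent_of {p : ℕ} [Fact p.Prime] (P : Finset ℕ) {F : IntermediateField ℚ Qb} {ι : Type} [Fintype ι]
    {E : ι → IntermediateField ℚ Qb} (hFf : FiniteDimensional ℚ F) (hE : ∀ i, E i ≤ F)
    (hdec : DecomposesIn (ZMod p) F E) : Descent p P (Set.range E) F :=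
  ⟨cycBound_of_decomposes P hFf hE hdec,
    fun _ hL hL' => (cycBound_of_decomposes P hFf hE hdec).finite (Set.finite_range E) hL hL'⟩

/-- (1) the criterion for finitely many subfields; (2) division of angles; (3) fields with `μ ≠ 0` all of whose
proper subfields have `μ = 0`. -/
theorem result (p : ℕ) [Fact p.Prime] (P : Finset ℕ) (F : IntermediateField ℚ Qb)
    (hF : FiniteDimensional ℚ F) :
    (∀ (ι : Type) [Fintype ι] (E : ι → IntermediateField ℚ Qb), (∀ i, E i ≤ F) →
      DecomposesIn (ZMod p) F E → Descent p P (Set.range E) F) ∧
    (∀ (c : Qb ≃ₐ[ℚ] Qb) (E : IntermediateField ℚ Qb) (δ : Qb) (m n : ℕ) (b : Fin n → Qb),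
      IsAngle c E δ m b → cosTop c E δ b = F →
        (¬ p ∣ m → Descent p P (Set.range fun e : Fin n → Fin m => cosSimple c E δ b e) F) ∧
        (TotReal E → (∀ σ : Qb →+* ℂ, (σ (δ ^ 2)).re < 0) → TotReal F)) ∧
    (∀ L, IsCyc p L → ¬ (chars p P (F ⊔ L)).Finite → (∀ E < F, (chars p P (E ⊔ L)).Finite) →
      (∀ (ι : Type) [Fintype ι] (E : ι → IntermediateField ℚ Qb), (∀ i, E i < F) →
        ¬ DecomposesIn (ZMod p) F E) ∧
      ∀ (c : Qb ≃ₐ[ℚ] Qb) (E : IntermediateField ℚ Qb) (δ : Qb) (m n : ℕ) (b : Fin n → Qb),
        IsAngle c E δ m b → cosTop c E δ b = F → ¬ p ∣ m →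
          ∃ e : Fin n → Fin m, cosSimple c E δ b e = F) := by
  have h1 : ∀ (ι : Type) [Fintype ι] (E : ι → IntermediateField ℚ Qb), (∀ i, E i ≤ F) →
      DecomposesIn (ZMod p) F E → Descent p P (Set.range E) F :=
    fun ι _ E hE hdec => descent_of P hF hE hdec
  have h2 : ∀ (c : Qb ≃ₐ[ℚ] Qb) (E : IntermediateField ℚ Qb) (δ : Qb) (m n : ℕ) (b : Fin n → Qb),
      IsAngle c E δ m b → cosTop c E δ b = F → ¬ p ∣ m →
        Descent p P (Set.range fun e : Fin n → Fin m => cosSimple c E δ b e) F := by
    intro c E δ m n b hb hT hpm
    refine h1 _ _ (fun e => ?_) (hT ▸ decomposesIn_cos hb p hpm)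
    rw [← hT]
    exact cosSimple_le hb e
  refine ⟨h1, fun c E δ m n b hb hT => ⟨h2 c E δ m n b hb hT, fun hE hδ => hT ▸ totReal_cos hb hE hδ⟩,
    fun L hL hne hall => ⟨fun ι _ E hE hdec => ?_, fun c E δ m n b hb hT hpm => ?_⟩⟩
  · refine hne ((h1 ι E (fun i => (hE i).le) hdec).2 L hL ?_)
    rintro _ ⟨i, rfl⟩
    exact hall _ (hE i)
  · by_contra hcon
    push Not at hcon
    refine hne ((h2 c E δ m n b hb hT hpm).2 L hL ?_)
    rintro _ ⟨e, rfl⟩
    refine hall _ (lt_of_le_of_ne ?_ (hcon e))
    rw [← hT]
    exact cosSimple_le hb e

end Pool.Agent.Results.MP_4e64b4_nt.AngleDivision
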