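import Pool.Agent.U10.Mu.A
import Pool.Agent.U10.Mu.C
import Pool.Agent.U10.Mu.Fam
import Pool.Agent.U120.GapE

/-!
# The jumps of the μ-ranks of the groups `X_Σ`

Let `k` be a number field, `p` a prime number and `k_∞` a `ℤ_p`-extension of `k`, for example the
cyclotomic one.  It is given by a continuous surjective homomorphism `a` from the Galois group of `k` onto
`ℤ_p` whose kernel is the Galois group of `k_∞`.

For a finite extension `K` of `k` let `X(K)` be the Galois group over `K k_∞` of the maximal abelian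
pro-`p` extension of `K k_∞` which is unramified outside the places above `S`, a set of finite places of `k`.
It is a module over `Λ = ℤ_p[[Γ]]`, `Γ = Gal(k_∞ / k) = Gal(K k_∞ / K)` (if `p` does not divide the degree of
`K`).  Let `r(K)` be the rank over `F_p[[T]]` of the module of the `Λ`-linear maps `X(K) → F_p[[T]]`, where
`Γ` acts through the character `(1 + T) ^ a`.  In the problem `K` is totally real, `p` is odd, `S` consists of
the finite places in `Σ` and `k_∞` is the cyclotomic `ℤ_p`-extension.  Then `X(K)` is a torsion module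
(Iwasawa), pseudo-isomorphic to `⊕ Λ/p^(m_i) ⊕ ⊕ Λ/(f_j)`, and `r(K)` is the number of the factors
`Λ/p^(m_i)`, `m_i ≥ 1`; so `r(K) = 0` if and only if `μ = 0`.

We show, for finite Galois extensions `K' ⊆ K` of `k` of degrees prime to `p`, and a prime `ℓ ≠ p`:

1. If `r(K)` is finite then `r(K) = r(K') + d` for some `d`, and if `d` is not `0` then `Gal(K/k)` has a
   representation over `F_p` of degree `d` which is not trivial on `Gal(K/K')`.
2. Let `K'` contain the elements of `K` which are fixed by the `ℓ ^ m`-th powers of all elements of `ℓ`-power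
   order of `Gal(K/k)`.  Then `r(K) = r(K')`, or `r(K) ≥ r(K') + ord(p mod ℓ ^ (m + 1))`.
3. Let `L_0 ⊆ L_1 ⊆ L_2 ⊆ ...` be finite Galois extensions of `k` of degree prime to `p` such that the
   condition in 2 holds for `L_m ⊆ L_(m + 1)`, for all `m`.  Then one of them controls
   all finite extensions `K` of `k` in the union of the `L_m`: `r(K) = r(K ∩ L_m)`;
   or `r(L_(m+1)) ≥ r(L_m) + ord(p mod ℓ ^ (m + 1))` for infinitely many `m`.
4. For a `ℤ_ℓ`-extension of `k` with the layers `L_m` each jump `r(L_(m+1)) - r(L_m)` is `0` or at least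
   `ord(p mod ℓ ^ (m + 1))`; and one layer controls all of them, or `r(L_m) ≥ c [L_m : k]` for infinitely many
   `m`, with a constant `c > 0`.

Proof.  The maps for `K` form a representation of `Gal(K/k)` over `F_p[[T]]`, and the maps for `K'` are the
elements fixed by `Gal(K/K')` (transfer; helper10's project MU, with packages of helper103 and helper72).  The
quotient by them is torsion free, and `Gal(K/K')` acts on it without fixed elements.  Its kernel is
the kernel of a representation over `F_p` of the same degree.  If `d` is not zero then some `ℓ ^ m`-th power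
of an element of `ℓ`-power order acts non-trivially, and a matrix over `F_p` of order `ℓ ^ (m + 1)` has a
minimal polynomial with an irreducible factor in common with the cyclotomic polynomial; the degree of this
factor is the order of `p` modulo `ℓ ^ (m + 1)`.
-/

set_option autoImplicit false

open Module

namespace Pool.Agent.Results.MP_4e64b4_nt.JumpsInTowers

open Pool.Agent.U10.Mu
open Pool.Agent.U10.Shr (ine)

variable {k : Type} [Field k] [NumberField k]

/-- `f` is a continuous homomorphism from the Galois group of `K k_∞` (`a.ker` is the Galois group of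
`k_∞`) to `F_p[[T]]` which is zero on the inertia groups of the places which are not above `S`,
with `f(σ x σ⁻¹) = (1 + T) ^ a(σ) f(x)` for all `σ` in the Galois group of `K`: a `Λ`-linear map from `X(K)` to
`F_p[[T]]`. -/
def IsLambdaMap (p : ℕ) [Fact p.Prime]
    (a : (AlgebraicClosure k ≃ₐ[k] AlgebraicClosure k) →* Multiplicative ℤ_[p]) (S : Set (ValuationSubring k))
    (K : IntermediateField k (AlgebraicClosure k))
    (f : ↥(K.fixingSubgroup ⊓ a.ker) → PowerSeries (ZMod p)) : Prop :=
  (∀ x y, f (x * y) = f x + f y) ∧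
  (∀ n, IsLocallyConstant fun x => PowerSeries.coeff n (f x)) ∧
  (∀ V : ValuationSubring (AlgebraicClosure k), V.comap (algebraMap k (AlgebraicClosure k)) ∉ S →
    ∀ x : ↥(K.fixingSubgroup ⊓ a.ker), x.1 ∈ ine k V → f x = 0) ∧
  ∀ σ ∈ K.fixingSubgroup, ∀ x y : ↥(K.fixingSubgroup ⊓ a.ker), y.1 = σ * x.1 * σ⁻¹ →
    f y = opw p (a σ).toAdd * f x

variable {p : ℕ} [Fact p.Prime]
  {a : (AlgebraicClosure k ≃ₐ[k] AlgebraicClosure k) →* Multiplicative ℤ_[p]} {S : Set (ValuationSubring k)}
  {K : IntermediateField k (AlgebraicClosure k)}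

omit [NumberField k] in
theorem isLambdaMap_iff (f : ↥(K.fixingSubgroup ⊓ a.ker) → PowerSeries (ZMod p)) :
    IsLambdaMap p a S K f ↔ f ∈ EE p a (famO k S) K.fixingSubgroup := by
  constructor
  · rintro ⟨h1, h2, h3, h4⟩
    refine ⟨h1, h2, ?_, h4⟩
    rintro D ⟨V, hV, rfl⟩ x hx
    exact h3 V hV x hx
  · rintro ⟨h1, h2, h3, h4⟩
    exact ⟨h1, h2, fun V hV x hx => h3 _ ⟨V, hV, rfl⟩ x hx, h4⟩

/-- The module of the `Λ`-linear maps from `X(K)` to `F_p[[T]]`. -/
def lambdaMaps (p : ℕ) [Fact p.Prime]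
    (a : (AlgebraicClosure k ≃ₐ[k] AlgebraicClosure k) →* Multiplicative ℤ_[p]) (S : Set (ValuationSubring k))
    (K : IntermediateField k (AlgebraicClosure k)) :
    Submodule (PowerSeries (ZMod p)) (↥(K.fixingSubgroup ⊓ a.ker) → PowerSeries (ZMod p)) where
  carrier := {f | IsLambdaMap p a S K f}
  add_mem' := fun {f g} hf hg => (isLambdaMap_iff _).2
    (add_mem ((isLambdaMap_iff f).1 hf) ((isLambdaMap_iff g).1 hg))
  zero_mem' := (isLambdaMap_iff _).2 (zero_mem _)
  smul_mem' := fun c {f} hf => (isLambdaMap_iff _).2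
    (Submodule.smul_mem _ c ((isLambdaMap_iff f).1 hf))

/-- The rank `r(K)` of this module over `F_p[[T]]`. -/
noncomputable def rk (p : ℕ) [Fact p.Prime]
    (a : (AlgebraicClosure k ≃ₐ[k] AlgebraicClosure k) →* Multiplicative ℤ_[p]) (S : Set (ValuationSubring k))
    (K : IntermediateField k (AlgebraicClosure k)) : Cardinal :=
  Module.rank (PowerSeries (ZMod p)) (lambdaMaps p a S K)

omit [NumberField k] in
theorem rk_eq : rk p a S = rkE p a (famO k S) := by
  funext K
  have h1 : lambdaMaps p a S K = EE p a (famO k S) K.fixingSubgroup :=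
    Submodule.ext fun f => isLambdaMap_iff f
  unfold rk rkE
  rw [h1]

/-- `K'` contains the elements of `K` which are fixed by the `ℓ ^ m`-th powers of all elements of `ℓ`-power
order of the Galois group of `K` over `k`. -/
def PowerFixed (ℓ m : ℕ) (K' K : IntermediateField k (AlgebraicClosure k)) : Prop :=
  ∀ x : K, (∀ σ : K ≃ₐ[k] K, (∃ j : ℕ, σ ^ ℓ ^ j = 1) → (σ ^ ℓ ^ m) x = x) →
    (x : AlgebraicClosure k) ∈ K'

/-- The field `L₀` controls the ranks over the finite extensions of `k` in `Ω`. -/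
def Controls (p : ℕ) [Fact p.Prime]
    (a : (AlgebraicClosure k ≃ₐ[k] AlgebraicClosure k) →* Multiplicative ℤ_[p]) (S : Set (ValuationSubring k))
    (Ω L₀ : IntermediateField k (AlgebraicClosure k)) : Prop :=
  ∀ K ≤ Ω, FiniteDimensional k K → rk p a S K = rk p a S (K ⊓ L₀)

theorem result (p : ℕ) [Fact p.Prime]
    (a : (AlgebraicClosure k ≃ₐ[k] AlgebraicClosure k) →* Multiplicative ℤ_[p])
    (_ha : Continuous a) (_hs : Function.Surjective a) (S : Set (ValuationSubring k))
    (ℓ : ℕ) (hℓ : ℓ.Prime) (hne : ℓ ≠ p) :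
    (∀ K' K : IntermediateField k (AlgebraicClosure k), K' ≤ K →
      FiniteDimensional k K → IsGalois k K → IsGalois k K' → ¬ p ∣ finrank k K →
      (rk p a S K < Cardinal.aleph0 →
        ∃ (d : ℕ) (φ : (K ≃ₐ[k] K) →* GL (Fin d) (ZMod p)),
          rk p a S K = rk p a S K' + (d : Cardinal) ∧
          (d ≠ 0 → ∃ σ : K ≃ₐ[k] K,
            (∀ x : K, (x : AlgebraicClosure k) ∈ K' → σ x = x) ∧ φ σ ≠ 1)) ∧
      ∀ m : ℕ, PowerFixed ℓ m K' K → rk p a S K = rk p a S K' ∨
        rk p a S K' + (orderOf (p : ZMod (ℓ ^ (m + 1))) : ℕ) ≤ rk p a S K) ∧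
    (∀ L : ℕ → IntermediateField k (AlgebraicClosure k), Monotone L →
      (∀ m, FiniteDimensional k (L m) ∧ IsGalois k (L m) ∧ ¬ p ∣ finrank k (L m) ∧
        PowerFixed ℓ m (L m) (L (m + 1))) →
      (∃ m₀, rk p a S (L m₀) < Cardinal.aleph0 ∧ Controls p a S (⨆ m, L m) (L m₀)) ∨
      ∀ M, ∃ m ≥ M, rk p a S (L m) + (orderOf (p : ZMod (ℓ ^ (m + 1))) : ℕ) ≤
        rk p a S (L (m + 1))) ∧
    (∀ L : ℕ → IntermediateField k (AlgebraicClosure k), Monotone L →
      (∀ m, finrank k (L m) = ℓ ^ m ∧ IsGalois k (L m) ∧ IsCyclic (L m ≃ₐ[k] L m)) →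
      (∀ m, rk p a S (L (m + 1)) = rk p a S (L m) ∨
        rk p a S (L m) + (orderOf (p : ZMod (ℓ ^ (m + 1))) : ℕ) ≤ rk p a S (L (m + 1))) ∧
      ((∃ m₀, rk p a S (L m₀) < Cardinal.aleph0 ∧ Controls p a S (⨆ m, L m) (L m₀)) ∨
      ∃ D : ℕ, ∀ M, ∃ m ≥ M, (finrank k (L m) : Cardinal) ≤ D * rk p a S (L m))) := by
  unfold Controls
  rw [rk_eq]
  exact Pool.Agent.U120.GapE.mainG p Pool.Agent.U10.Mu.A.proof Pool.Agent.U10.Mu.C.proof a
    (stab_famO k S) ℓ hℓ hne

end Pool.Agent.Results.MP_4e64b4_nt.JumpsInTowers
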