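import Pool.Agent.U463.XS.Fld

/-!
# The groups `X_Σ`: descent to dominated fields over infinite extensions

Let `p` be a prime and `P` a finite set of primes. For a field `K` of algebraic numbers, of finite or infinite
degree, let `X_P (K)` be the Galois group over `K` of the maximal abelian pro-`p` extension of `K` which is
unramified outside the places above `P` and the real places. For `p` odd, `E` totally real, `p ∈ P` and
`K = E ℚ^cyc` this is the module `X_Σ` of the problem, `Σ` the set of the places above `P` and `∞`. Here
`chars p P K` is the set of the continuous homomorphisms `X_P (K) → ℤ/p`; it has as many elements as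
`X_P (K) / p`, and it is finite if and only if `X_P (K)` is finitely generated over `ℤ_p` (Nakayama). So `μ_p (E) = 0` if
and only if `chars p P (E ℚ^cyc)` is finite.

(1) Let `N / ℚ` be finite Galois with group `G`, let `F ≤ N`, and let `𝓔` be a set of subfields of `N` that
*dominates* `F`: every finite `𝔽_p[G]`-module with a nonzero vector fixed by `Gal(N/F)` has a nonzero vector fixed
by `Gal(N/E)` for some `E ∈ 𝓔`. For each `t` there is a constant `B` such that for all Galois extensions `L / ℚ`, of
finite or infinite degree, in which the primes outside `P` that ramify in `N` have at most `t` places,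
`|X_P (F L) / p| ≤ B * (max_{E ∈ 𝓔} |X_P (E L) / p|) ^ B`. (If `N / ℚ` is unramified outside `P` these are all the Galois
extensions `L / ℚ`.) There is one constant `B` for all the fields `L` generated by roots of unity of `p`-power order,
in particular for `L = ℚ^cyc`: if `μ = 0` for all `E ∈ 𝓔` then `μ = 0` for `F`.

(2) Let `α` be a root of the irreducible polynomial `f`, and let `𝓔` be a finite set of number fields such that the
functions on the roots of `f` with values in `𝔽_p` which are constant on the roots of each irreducible factor of `f`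
over a conjugate of some `E ∈ 𝓔` span a space that contains all the functions with sum `0`. Then the last assertions
of (1) hold for `F = ℚ(α)` and `𝓔`.

(3) Let the Galois group of the irreducible polynomial `f` of degree at least `3` contain the alternating group, and
let `E` be a number field over which `f` is reducible. Then they hold for `F = ℚ(α)` and `𝓔 = {E}`. So if `E` is
totally real, `f` has real roots only and `μ_p (E) = 0` then `μ_p (ℚ(α)) = 0`.

The prime `p` may divide the order of `G`. Then restriction and corestriction between the fields lose the factors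
`𝔽_p[[T]]`, which are the ones that count for `μ`.
-/

set_option autoImplicit false

open Polynomial IntermediateField

namespace Pool.Agent.Results.MP_4e64b4_nt.ReducibilityDescent

open Pool.Agent.Q60.MU (Qb)
open Pool.Agent.U463.MD (Dominates Spanning ContainsAlternating)
open Pool.Agent.U463.XS

/-- For each `t` the inequality holds with one constant `B` for all the Galois extensions `L` of `ℚ` in which the
primes outside `P` that ramify in `N` have at most `t` places. -/
def GalBound (p : ℕ) (P : Finset ℕ) (N : IntermediateField ℚ Qb) (𝓔 : Set (IntermediateField ℚ Qb))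
    (F : IntermediateField ℚ Qb) : Prop :=
  ∀ t : ℕ, ∃ B : ℕ, ∀ L : IntermediateField ℚ Qb, IsGalois ℚ L →
    (∀ ℓ, ℓ.Prime → ℓ ∉ P → ¬ Unram ℓ N → Places t ℓ L) → CharBound p P 𝓔 F L B

/-- The inequality holds with one constant for all the fields `L` generated by roots of unity of `p`-power order, and
for these fields finiteness for all `E ∈ 𝓔` implies finiteness for `F`. -/
def Descent (p : ℕ) (P : Finset ℕ) (𝓔 : Set (IntermediateField ℚ Qb)) (F : IntermediateField ℚ Qb) : Prop :=
  CycBound p P 𝓔 F ∧
    ∀ L, IsCyc p L → (∀ E ∈ 𝓔, (chars p P (E ⊔ L)).Finite) → (chars p P (F ⊔ L)).Finite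

/-- **Descent to dominated fields for the groups `X_Σ`.** -/
theorem result (p : ℕ) (hp : p.Prime) (P : Finset ℕ) :
    (∀ N : IntermediateField ℚ Qb, FiniteDimensional ℚ N → IsGalois ℚ N →
      ∀ F ≤ N, ∀ 𝓔 : Set (IntermediateField ℚ Qb), (∀ E ∈ 𝓔, E ≤ N) → Dominates p N 𝓔 F →
        GalBound p P N 𝓔 F ∧ Descent p P 𝓔 F) ∧
    (∀ (f : ℚ[X]) (α : Qb), Irreducible f → aeval α f = 0 →
      ∀ 𝓔 : Set (IntermediateField ℚ Qb), 𝓔.Finite → (∀ E ∈ 𝓔, FiniteDimensional ℚ E) →
        Spanning p 𝓔 f → Descent p P 𝓔 ℚ⟮α⟯) ∧
    (∀ (f : ℚ[X]) (α : Qb), Irreducible f → 3 ≤ f.natDegree → ContainsAlternating f →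
      aeval α f = 0 → ∀ E : IntermediateField ℚ Qb, FiniteDimensional ℚ E →
        ¬ Irreducible (f.map (algebraMap ℚ E)) → Descent p P {E} ℚ⟮α⟯) := by
  refine ⟨fun N hN hNn F hF 𝓔 h𝓔 hdom => ?_, fun f α hf hα 𝓔 hfin hE hs => ?_,
    fun f α hf h3 hfull hα E hE hred => ?_⟩
  · have h := cycBound_of_dominates hp P N hN hNn F hF 𝓔 h𝓔 hdom
    exact ⟨charBound_of_dominates hp P N hN hNn F hF 𝓔 h𝓔 hdom, h,
      fun L hL hL' => h.finite (Pool.Agent.U463.MD.finite_sub hN hNn h𝓔) hL hL'⟩
  · have h := cycBound_of_spanning hp P hf hfin hE hs hα
    exact ⟨h, fun L hL hL' => h.finite hfin hL hL'⟩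
  · have h := cycBound_of_factor hp P hf h3 hfull hE hred hα
    exact ⟨h, fun L hL hL' => h.finite (Set.finite_singleton E) hL hL'⟩

end Pool.Agent.Results.MP_4e64b4_nt.ReducibilityDescent
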